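import Pool.Agent.W78.EC.Dil2
import Pool.Agent.W251.EX.Defs

/-!
Dilation invariance of the logarithmic average, for a general function of the pair
-/

set_option autoImplicit false

namespace Pool.Agent.W978.EX

open Finset Filter
open Pool.Agent.H376R2.MR Pool.Agent.W78.GA Pool.Agent.W78.EC Pool.Agent.W251.EX Pool.Agent.W64.EC
  Pool.Agent.W78.EC.Dl

open scoped Classical in
theorem AG_eq (g : Gi × Gi → ℂ) {s₁ s₂ s₃ s₄ : ℝ} (h2 : s₂ ≤ 1) (h4 : s₄ ≤ 1) {N : ℕ} {x : ℝ}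
    (hx : 0 ≤ x) (hxN : x ≤ N) : AG g s₁ s₂ s₃ s₄ x =
      ∑ e ∈ dedge 0 1 N, if (0 < ip e.1 e.2 ∧ cnd s₁ s₂ s₃ s₄ e x) then g e else 0 := by
  unfold AG
  rw [← sum_filter]
  refine sum_congr ?_ fun e _ => rfl
  ext e
  rw [mem_filter, mem_filter, mem_dedge', mem_dedge']
  simp only [cnd]
  constructor
  · rintro ⟨⟨⟨h5, h6⟩, ⟨h7, h8⟩, h9⟩, h10⟩
    exact ⟨⟨⟨h5, h6.trans hxN⟩, ⟨h7, h8.trans hxN⟩, h9⟩, h10⟩
  · rintro ⟨⟨⟨h5, h6⟩, ⟨h7, h8⟩, h9⟩, h11, h10⟩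
    refine ⟨⟨⟨h5, ?_⟩, ⟨h7, ?_⟩, h9⟩, h11, h10⟩
    · nlinarith [h10.2.1]
    · nlinarith [h10.2.2.2]

theorem dilx : S_DILX := by
  classical
  intro g hg s₁ s₂ s₃ s₄ h1 h12 h2 h3 h34 h4
  refine ⟨1728, fun p N hp hN => ?_⟩
  have hp0 : (0 : ℝ) < p := by exact_mod_cast hp
  have hp1 : (1 : ℝ) ≤ p := by exact_mod_cast hp
  have hN0 : (0 : ℝ) < N := by exact_mod_cast hN
  let g' : Gi × Gi → ℂ := fun e => if 0 < ip e.1 e.2 then g e else 0
  have hg' : ∀ e, ‖g' e‖ ≤ 1 := by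
    intro e
    simp only [g']
    split_ifs
    · exact hg e
    · simp
  have e1 : ∑ X ∈ Icc 1 N, (((p : ℝ) / (X : ℝ) ^ 2 : ℝ) : ℂ) * AG g s₁ s₂ s₃ s₄ ((X : ℝ) / p) =
      ∑ e ∈ dedge 0 1 N, g' e * ((∑ X ∈ Icc 1 N, (p : ℝ) / (X : ℝ) ^ 2 *
        (if cnd s₁ s₂ s₃ s₄ e ((X : ℝ) / p) then 1 else 0) : ℝ) : ℂ) := by
    simp only [Complex.ofReal_sum, mul_sum]
    rw [sum_comm]
    refine sum_congr rfl fun X hX => ?_
    have hX1 : (X : ℝ) ≤ N := by exact_mod_cast (mem_Icc.mp hX).2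
    have hX0 : (0 : ℝ) ≤ X := Nat.cast_nonneg X
    rw [AG_eq g h2 h4 (N := N) (by positivity) ((div_le_self hX0 hp1).trans hX1), mul_sum]
    refine sum_congr rfl fun e _ => ?_
    simp only [g']
    by_cases h : cnd s₁ s₂ s₃ s₄ e ((X : ℝ) / p)
    · by_cases h' : 0 < ip e.1 e.2
      · rw [if_pos ⟨h', h⟩, if_pos h, if_pos h', mul_one]
        ring
      · rw [if_neg (fun h'' => h' h''.1), if_neg h']
        ring
    · rw [if_neg (fun h'' => h h''.2), if_neg h, mul_zero, mul_zero, Complex.ofReal_zero, mul_zero]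
  have e2 : ∑ X ∈ Icc 1 N, ((1 / (X : ℝ) ^ 2 : ℝ) : ℂ) * AG g s₁ s₂ s₃ s₄ X =
      ∑ e ∈ dedge 0 1 N, g' e * ((∑ X ∈ Icc 1 N, 1 / (X : ℝ) ^ 2 *
        (if cnd s₁ s₂ s₃ s₄ e X then 1 else 0) : ℝ) : ℂ) := by
    simp only [Complex.ofReal_sum, mul_sum]
    rw [sum_comm]
    refine sum_congr rfl fun X hX => ?_
    have hX1 : (X : ℝ) ≤ N := by exact_mod_cast (mem_Icc.mp hX).2
    have hX0 : (0 : ℝ) ≤ X := Nat.cast_nonneg X
    rw [AG_eq g h2 h4 (N := N) hX0 hX1, mul_sum]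
    refine sum_congr rfl fun e _ => ?_
    simp only [g']
    by_cases h : cnd s₁ s₂ s₃ s₄ e X
    · by_cases h' : 0 < ip e.1 e.2
      · rw [if_pos ⟨h', h⟩, if_pos h, if_pos h', mul_one]
        ring
      · rw [if_neg (fun h'' => h' h''.1), if_neg h']
        ring
    · rw [if_neg (fun h'' => h h''.2), if_neg h, mul_zero, mul_zero, Complex.ofReal_zero, mul_zero]
  rw [e1, e2, ← sum_sub_distrib]
  let k : Gi × Gi → ℕ := fun e => max (nm e.1) (nm e.2)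
  let f : ℕ → ℝ := fun m => min (1 / (m : ℝ)) ((p : ℝ) / N) + 2 / (m : ℝ) ^ 2
  have hk1 : ∀ e ∈ dedge 0 1 (N : ℝ), 1 ≤ k e := by
    intro e he
    rw [mem_dedge'] at he
    exact le_max_of_le_left ((one_le_nm hD01).2 (prim_ne_zero he.1.1))
  have hkN : ∀ e ∈ dedge 0 1 (N : ℝ), k e ≤ N := by
    intro e he
    rw [mem_dedge'] at he
    exact max_le (by exact_mod_cast he.1.2) (by exact_mod_cast he.2.1.2)
  have hf : ∀ m, 1 ≤ m → f (m + 1) ≤ f m := by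
    intro m hm
    have hm0 : (0 : ℝ) < m := by exact_mod_cast hm
    simp only [f]
    push_cast
    refine add_le_add (min_le_min_right _ ?_) ?_
    · exact one_div_le_one_div_of_le hm0 (by linarith)
    · refine div_le_div_of_nonneg_left (by norm_num) (by positivity) ?_
      exact pow_le_pow_left₀ hm0.le (by linarith) 2
  have hC : ∀ m : ℕ, (((dedge 0 1 (N : ℝ)).filter (fun e => k e ≤ m)).card : ℝ) ≤ 144 * m := by
    intro m
    refine le_trans ?_ (dedge_card (Nat.cast_nonneg m))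
    have : (dedge 0 1 (N : ℝ)).filter (fun e => k e ≤ m) ⊆ dedge 0 1 (m : ℝ) := by
      intro e he
      rw [mem_filter, mem_dedge'] at he
      rw [mem_dedge']
      obtain ⟨⟨⟨h5, h6⟩, ⟨h7, h8⟩, h9⟩, h10⟩ := he
      have h11 : nm e.1 ≤ m ∧ nm e.2 ≤ m := max_le_iff.mp h10
      exact ⟨⟨h5, by exact_mod_cast h11.1⟩, ⟨h7, by exact_mod_cast h11.2⟩, h9⟩
    exact_mod_cast card_le_card this
  have hab := abel (dedge 0 1 (N : ℝ)) k f 144 hk1 hf hC N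
  have hfil : (dedge 0 1 (N : ℝ)).filter (fun e => k e ≤ N) = dedge 0 1 (N : ℝ) :=
    filter_true_of_mem hkN
  rw [hfil] at hab
  have hf0 : 0 ≤ f N := by
    simp only [f]
    positivity
  have hcard : 0 ≤ 144 * (N : ℝ) - ((dedge 0 1 (N : ℝ)).card : ℝ) := by
    have := dedge_card (X := (N : ℝ)) hN0.le
    linarith
  have hsum1 : ∑ e ∈ dedge 0 1 (N : ℝ), f (k e) ≤ 144 * ∑ m ∈ Icc 1 N, f m := by
    have := mul_nonneg hcard hf0
    linarith
  have hsum2 : ∑ m ∈ Icc 1 N, f m ≤ 6 + Real.log p := by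
    have h5 := min_sum hp hN
    have h6 := sum_inv_sq N
    have h7 : ∑ m ∈ Icc 1 N, f m = ∑ m ∈ Icc 1 N, min (1 / (m : ℝ)) ((p : ℝ) / N) +
        2 * ∑ m ∈ Icc 1 N, 1 / (m : ℝ) ^ 2 := by
      rw [mul_sum, ← sum_add_distrib]
      refine sum_congr rfl fun m _ => ?_
      simp only [f]
      ring
    rw [h7]
    linarith
  have hlog : 0 ≤ Real.log p := Real.log_nonneg hp1
  calc _ ≤ ∑ e ∈ dedge 0 1 (N : ℝ), 2 * f (k e) := by
        refine (norm_sum_le _ _).trans (sum_le_sum fun e he => ?_)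
        rw [← mul_sub, norm_mul, ← Complex.ofReal_sub, Complex.norm_real, Real.norm_eq_abs]
        have h8 := one_pair h1 h12 h2 h3 h34 h4 hp hN e (hk1 e he)
        refine le_trans (mul_le_mul_of_nonneg_right (hg' e) (abs_nonneg _)) ?_
        rw [one_mul]
        exact h8
    _ = 2 * ∑ e ∈ dedge 0 1 (N : ℝ), f (k e) := by rw [mul_sum]
    _ ≤ 2 * (144 * (6 + Real.log p)) := by linarith
    _ ≤ 1728 * (1 + Real.log p) := by linarith

end Pool.Agent.W978.EX
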